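import Mathlib

namespace Pool.Agent.Results.MP_9ad7dc_al.Generate

open Polynomial Module

/-- The primitive idempotent `∏_{j ≠ i} (X - θ_j) / (θ_i - θ_j)` of `X`. -/
noncomputable def idem {K 𝒜 : Type*} [Field K] [Ring 𝒜] [Algebra K 𝒜] {d : ℕ}
    (x : 𝒜) (θ : Fin (d + 1) → K) (i : Fin (d + 1)) : 𝒜 :=
  aeval x (∏ j ∈ Finset.univ.erase i, (C (θ i - θ j)⁻¹ * (X - C (θ j))))

/-- `E` is an ordering of the primitive idempotents of the multiplicity-free element `x`. -/
def PrimIdem (K : Type*) {𝒜 : Type*} [Field K] [Ring 𝒜] [Algebra K 𝒜] {d : ℕ}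
    (x : 𝒜) (E : Fin (d + 1) → 𝒜) : Prop :=
  ∃ θ : Fin (d + 1) → K, Function.Injective θ ∧ (∀ i, θ i ∈ spectrum K x) ∧ ∀ i, E i = idem x θ i

/-- `E i * y * E j` vanishes for `|i - j| > 1` and is nonzero for `|i - j| = 1`. -/
def Tridiag {𝒜 : Type*} [Ring 𝒜] {d : ℕ} (E : Fin (d + 1) → 𝒜) (y : 𝒜) : Prop :=
  ∀ i j : Fin (d + 1), (1 < |(i : ℤ) - (j : ℤ)| → E i * y * E j = 0) ∧
    (|(i : ℤ) - (j : ℤ)| = 1 → E i * y * E j ≠ 0)

def Leonard (K : Type*) {𝒜 : Type*} [Field K] [Ring 𝒜] [Algebra K 𝒜] {d : ℕ}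
    (A : 𝒜) (E : Fin (d + 1) → 𝒜) (As : 𝒜) (Es : Fin (d + 1) → 𝒜) : Prop :=
  PrimIdem K A E ∧ PrimIdem K As Es ∧ Tridiag E As ∧ Tridiag Es A

section
variable {K V : Type*} [Field K] [AddCommGroup V] [Module K V] {d : ℕ}

def Hess (c : Basis (Fin (d + 1)) K V) (T : End K V) : Prop :=
  ∀ i j : Fin (d + 1), ((j : ℕ) + 1 < i → c.repr (T (c j)) i = 0) ∧
    ((j : ℕ) + 1 = i → c.repr (T (c j)) i ≠ 0)

lemma mem_of_others (b : Basis (Fin (d + 1)) K V) (W : Submodule K V) (v : V) (hv : v ∈ W)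
    (k : Fin (d + 1)) (hk : b.repr v k ≠ 0) (h : ∀ j, j ≠ k → b.repr v j ≠ 0 → b j ∈ W) :
    b k ∈ W := by
  have e := b.sum_repr v
  rw [← Finset.add_sum_erase _ _ (Finset.mem_univ k)] at e
  have h2 : ∑ j ∈ Finset.univ.erase k, b.repr v j • b j ∈ W := by
    refine W.sum_mem fun j hj => ?_
    by_cases z : b.repr v j = 0
    · simp [z]
    · exact W.smul_mem _ (h j (Finset.ne_of_mem_erase hj) z)
  have h3 : b.repr v k • b k ∈ W := by
    have := W.sub_mem hv h2
    rwa [← eq_sub_of_add_eq e] at this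
  exact (W.smul_mem_iff hk).1 h3

lemma top_of (b : Basis (Fin (d + 1)) K V) (W : Submodule K V) (h : ∀ j, b j ∈ W) (v : V) :
    v ∈ W := by
  rw [← b.sum_repr v]
  exact W.sum_mem fun j _ => W.smul_mem _ (h j)

lemma cyc (c : Basis (Fin (d + 1)) K V) (T : End K V) (h : Hess c T) (U : Submodule K V)
    (h0 : c 0 ∈ U) (hT : ∀ v ∈ U, T v ∈ U) (v : V) : v ∈ U := by
  apply top_of c
  have : ∀ k : ℕ, ∀ i : Fin (d + 1), (i : ℕ) ≤ k → c i ∈ U := by
    intro k
    induction k with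
    | zero =>
      intro i hi
      have : i = 0 := Fin.ext (by simpa using hi)
      rwa [this]
    | succ k ih =>
      intro i hi
      by_cases e : (i : ℕ) ≤ k
      · exact ih i e
      let j : Fin (d + 1) := ⟨k, by omega⟩
      refine mem_of_others c U (T (c j)) (hT _ (ih j le_rfl)) i ((h i j).2 (by simp [j]; omega)) ?_
      intro l hl hz
      apply ih
      by_contra hh
      apply hz
      apply (h l j).1
      have : (l : ℕ) ≠ i := fun e => hl (Fin.ext e)
      simp only [j]; omega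
  exact fun j => this j j le_rfl

lemma nz (b c : Basis (Fin (d + 1)) K V) (T : End K V) (h : Hess c T) (θ : Fin (d + 1) → K)
    (hb : ∀ j, T (b j) = θ j • b j) (j : Fin (d + 1)) : b.repr (c 0) j ≠ 0 := by
  intro hz
  have key : (b.coord j) ∘ₗ T = θ j • b.coord j := by
    refine b.ext fun l => ?_
    by_cases e : l = j
    · simp [hb, e]
    · simp [hb, Finsupp.single_apply, e]
  have := cyc c T h (LinearMap.ker (b.coord j)) (by simpa using hz) (fun v hv => by
    have := LinearMap.congr_fun key v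
    simp only [LinearMap.mem_ker] at hv ⊢
    simp only [LinearMap.comp_apply, LinearMap.smul_apply, hv, smul_zero] at this
    exact this) (b j)
  simp at this

lemma split (b c : Basis (Fin (d + 1)) K V) (T : End K V) (h : Hess c T) (θ : Fin (d + 1) → K)
    (hθ : Function.Injective θ) (hb : ∀ j, T (b j) = θ j • b j) :
    ∀ k : ℕ, k ≤ d → ∀ W : Submodule K V, (∀ i : Fin (d + 1), (i : ℕ) ≤ k → c i ∈ W) →
      (∀ j : Fin (d + 1), k < (j : ℕ) → b j ∈ W) → ∀ v, v ∈ W := by
  have fin : ∀ (W : Submodule K V) (k : Fin (d + 1)), c 0 ∈ W → (∀ j, j ≠ k → b j ∈ W) →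
      ∀ v, v ∈ W := by
    intro W k h0 hj
    apply top_of b
    intro j
    by_cases e : j = k
    · subst e
      exact mem_of_others b W _ h0 j (nz b c T h θ hb j) fun l hl _ => hj l hl
    · exact hj j e
  intro k
  induction k with
  | zero =>
    intro _ W h1 h2
    refine fin W 0 (h1 0 le_rfl) fun j hj => h2 j ?_
    exact Nat.pos_of_ne_zero fun e => hj (Fin.ext e)
  | succ k ih =>
    intro hk W h1 h2
    let m : Fin (d + 1) := ⟨k + 1, by omega⟩
    have hS : ∀ j, (T - θ m • (1 : End K V)) (b j) = (θ j - θ m) • b j := by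
      intro j; simp [hb, sub_smul]
    have := ih (by omega) (W.comap (T - θ m • (1 : End K V))) ?_ ?_
    · refine fin W m (h1 0 (by simp)) fun j hj => ?_
      have h3 := this (b j)
      rw [Submodule.mem_comap, hS] at h3
      exact (W.smul_mem_iff (sub_ne_zero.2 fun e => hj (hθ e))).1 h3
    · intro i hi
      rw [Submodule.mem_comap]
      simp only [LinearMap.sub_apply, LinearMap.smul_apply, End.one_apply]
      refine W.sub_mem ?_ (W.smul_mem _ (h1 i (by omega)))
      rw [← c.sum_repr (T (c i))]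
      refine W.sum_mem fun l _ => ?_
      by_cases e : (l : ℕ) ≤ k + 1
      · exact W.smul_mem _ (h1 l e)
      · rw [(h l i).1 (by omega)]; simp
    · intro j hj
      rw [Submodule.mem_comap, hS]
      by_cases e : j = m
      · simp [e]
      · refine W.smul_mem _ (h2 j ?_)
        have : (j : ℕ) ≠ k + 1 := fun e' => e (Fin.ext e')
        omega

lemma basis_of [FiniteDimensional K V] (hV : finrank K V = d + 1) {T : End K V}
    {E : Fin (d + 1) → End K V} (h : PrimIdem K T E) :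
    ∃ (b : Basis (Fin (d + 1)) K V) (θ : Fin (d + 1) → K), Function.Injective θ ∧
      (∀ j, T (b j) = θ j • b j) ∧ ∀ i v, E i v = b.repr v i • b i := by
  obtain ⟨θ, hθ, hs, hE⟩ := h
  have := fun i => (End.hasEigenvalue_iff_mem_spectrum.2 (hs i)).exists_hasEigenvector
  choose x hx using this
  have li := End.eigenvectors_linearIndependent' T θ hθ x hx
  let b := basisOfLinearIndependentOfCardEqFinrank li (by simp [hV])
  have hb : ∀ j, b j = x j := fun j => by simp [b]
  refine ⟨b, θ, hθ, fun j => by rw [hb]; exact (hx j).apply_eq_smul, fun i v => ?_⟩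
  have : E i = (b.coord i).smulRight (b i) := by
    refine b.ext fun l => ?_
    rw [hE, idem, hb l, End.aeval_apply_of_hasEigenvector (hx l), ← hb l]
    simp only [eval_prod, eval_mul, eval_C, eval_sub, eval_X, LinearMap.smulRight_apply,
      Basis.coord_apply, Basis.repr_self]
    by_cases e : l = i
    · subst e
      rw [Finset.prod_eq_one]
      · simp
      · intro j hj
        exact inv_mul_cancel₀ (sub_ne_zero.2 fun e => Finset.ne_of_mem_erase hj (hθ e).symm)
    · rw [Finset.prod_eq_zero (i := l) (by simp [e]) (by simp)]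
      simp [Finsupp.single_apply, e]
  rw [this]; simp

lemma entry (b : Basis (Fin (d + 1)) K V) {E : Fin (d + 1) → End K V}
    (hE : ∀ i v, E i v = b.repr v i • b i) (y : End K V) (i j : Fin (d + 1)) :
    E i * y * E j = 0 ↔ b.repr (y (b j)) i = 0 := by
  constructor
  · intro h
    have := LinearMap.congr_fun h (b j)
    simpa [hE, b.ne_zero] using this
  · intro h
    ext v
    simp [hE, h]

lemma endo [FiniteDimensional K V] (hV : finrank K V = d + 1) {A As : End K V}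
    {E Es : Fin (d + 1) → End K V} (h : Leonard K A E As Es) (r : Fin (d + 1))
    (B : Subalgebra K (End K V)) (h1 : ∀ i, i ≤ r → Es i ∈ B) (h2 : ∀ j, r ≤ j → E j ∈ B)
    (x : End K V) : x * Es 0 ∈ B := by
  obtain ⟨hA, hAs, t1, t2⟩ := h
  obtain ⟨b, θ, hθ, hb, hE⟩ := basis_of hV hA
  obtain ⟨c, η, hη, hc, hEs⟩ := basis_of hV hAs
  have H1 : Hess c A := fun i j =>
    ⟨fun hh => (entry c hEs A i j).1 ((t2 i j).1 (by rw [lt_abs]; omega)),
     fun hh hz => (t2 i j).2 (by rw [abs_eq (by norm_num)]; omega) ((entry c hEs A i j).2 hz)⟩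
  have H2 : Hess (b.reindex Fin.revPerm) As := fun i j => by
    simp only [Basis.reindex_apply, Basis.repr_reindex_apply, Fin.revPerm_symm, Fin.revPerm_apply]
    have := i.2
    have := j.2
    exact ⟨fun hh => (entry b hE As _ _).1 ((t1 _ _).1 (by
        rw [lt_abs]; simp only [Fin.val_rev]; omega)),
      fun hh hz => (t1 _ _).2 (by rw [abs_eq (by norm_num)]; simp only [Fin.val_rev]; omega)
        ((entry b hE As _ _).2 hz)⟩
  let W : Submodule K V := (B.toSubmodule).map (LinearMap.applyₗ (c 0))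
  have hW : ∀ v, v ∈ W ↔ ∃ M ∈ B, M (c 0) = v := fun v => Iff.rfl
  have inv : ∀ M ∈ B, ∀ v ∈ W, M v ∈ W := by
    intro M hM v hv
    obtain ⟨N, hN, rfl⟩ := (hW v).1 hv
    exact (hW _).2 ⟨M * N, B.mul_mem hM hN, rfl⟩
  have w0 : c 0 ∈ W := (hW _).2 ⟨1, B.one_mem, rfl⟩
  have wb : ∀ j, r ≤ j → b j ∈ W := by
    intro j hj
    have := inv _ (h2 j hj) _ w0
    rw [hE] at this
    exact (W.smul_mem_iff (nz b c A H1 θ hb j)).1 this
  have wc : ∀ i, i ≤ r → c i ∈ W := by
    intro i hi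
    have := inv _ (h1 i hi) _ (wb (Fin.rev 0) (by simp [Fin.le_last]))
    rw [hEs] at this
    have z := nz c (b.reindex Fin.revPerm) As H2 η hc i
    simp only [Basis.reindex_apply, Fin.revPerm_symm, Fin.revPerm_apply] at z
    exact (W.smul_mem_iff z).1 this
  have all := split b c A H1 θ hθ hb r (by omega) W (fun i hi => wc i hi)
    (fun j hj => wb j (le_of_lt hj))
  obtain ⟨M, hM, e⟩ := (hW _).1 (all (x (c 0)))
  have : x * Es 0 = M * Es 0 := by
    ext v
    simp [hEs, e]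
  rw [this]
  exact B.mul_mem hM (h1 0 (Fin.zero_le _))

end

section
variable {K 𝒜 : Type*} [Field K] [Ring 𝒜] [Algebra K 𝒜] {d : ℕ}

lemma map_leonard {ℬ : Type*} [Ring ℬ] [Algebra K ℬ] (e : 𝒜 ≃ₐ[K] ℬ) {A As : 𝒜}
    {E Es : Fin (d + 1) → 𝒜} (h : Leonard K A E As Es) :
    Leonard K (e A) (fun i => e (E i)) (e As) (fun i => e (Es i)) := by
  have p : ∀ {x : 𝒜} {F : Fin (d + 1) → 𝒜}, PrimIdem K x F →
      PrimIdem K (e x) (fun i => e (F i)) := by
    rintro x F ⟨θ, h1, h2, h3⟩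
    refine ⟨θ, h1, fun i => by rw [AlgEquiv.spectrum_eq]; exact h2 i, fun i => ?_⟩
    simp only [h3, idem]
    exact (aeval_algHom_apply e _ _).symm
  have t : ∀ {x : 𝒜} {F : Fin (d + 1) → 𝒜}, Tridiag F x →
      Tridiag (fun i => e (F i)) (e x) := by
    intro x F h i j
    simp only [← map_mul, ne_eq, EmbeddingLike.map_eq_zero_iff]
    exact h i j
  exact ⟨p h.1, p h.2.1, t h.2.2.1, t h.2.2.2⟩

open MulOpposite in
lemma op_leonard {A As : 𝒜} {E Es : Fin (d + 1) → 𝒜} (h : Leonard K A E As Es) :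
    Leonard K (op A) (fun i => op (E i)) (op As) (fun i => op (Es i)) := by
  have p : ∀ {x : 𝒜} {F : Fin (d + 1) → 𝒜}, PrimIdem K x F →
      PrimIdem K (op x) (fun i => op (F i)) := by
    rintro x F ⟨θ, h1, h2, h3⟩
    refine ⟨θ, h1, fun i => ?_, fun i => ?_⟩
    · have := h2 i
      rw [spectrum.mem_iff] at this ⊢
      rwa [MulOpposite.algebraMap_apply, ← op_sub, isUnit_op]
    · simp only [h3, idem]
      rw [aeval_op_apply]
  have t : ∀ {x : 𝒜} {F : Fin (d + 1) → 𝒜}, Tridiag F x →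
      Tridiag (fun i => op (F i)) (op x) := by
    intro x F h i j
    simp only [← op_mul, ne_eq, op_eq_zero_iff, ← mul_assoc]
    rw [abs_sub_comm]
    exact h j i
  exact ⟨p h.1, p h.2.1, t h.2.2.1, t h.2.2.2⟩

lemma left (e : 𝒜 ≃ₐ[K] Matrix (Fin (d + 1)) (Fin (d + 1)) K) {A As : 𝒜}
    {E Es : Fin (d + 1) → 𝒜} (h : Leonard K A E As Es) (r : Fin (d + 1))
    (B : Subalgebra K 𝒜) (h1 : ∀ i, i ≤ r → Es i ∈ B) (h2 : ∀ j, r ≤ j → E j ∈ B)
    (x : 𝒜) : x * Es 0 ∈ B ∧ Es 0 ≠ 0 := by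
  let f : 𝒜 ≃ₐ[K] End K (Fin (d + 1) → K) := e.trans Matrix.toLinAlgEquiv'
  have hL := map_leonard f h
  constructor
  · have := endo (by simp) hL r (B.map f.toAlgHom) (fun i hi => ⟨_, h1 i hi, rfl⟩)
      (fun j hj => ⟨_, h2 j hj, rfl⟩) (f x)
    obtain ⟨y, hy, e'⟩ := this
    have : y = x * Es 0 := f.injective (by rw [map_mul]; exact e')
    exact this ▸ hy
  · obtain ⟨c, η, -, -, hEs⟩ := basis_of (by simp) hL.2.1
    intro hz
    have := hEs 0 (c 0)
    simp only [hz, map_zero] at this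
    simp [(c.ne_zero 0).symm] at this

end

open MulOpposite in
theorem result (K 𝒜 : Type*) [Field K] [Ring 𝒜] [Algebra K 𝒜] (d : ℕ)
    (e : 𝒜 ≃ₐ[K] Matrix (Fin (d + 1)) (Fin (d + 1)) K) (A As : 𝒜) (E Es : Fin (d + 1) → 𝒜)
    (h : Leonard K A E As Es) (r : Fin (d + 1)) :
    Algebra.adjoin K (Es '' Set.Iic r ∪ E '' Set.Ici r) = ⊤ := by
  set B := Algebra.adjoin K (Es '' Set.Iic r ∪ E '' Set.Ici r)
  have h1 : ∀ i, i ≤ r → Es i ∈ B := fun i hi => Algebra.subset_adjoin (Or.inl ⟨i, hi, rfl⟩)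
  have h2 : ∀ j, r ≤ j → E j ∈ B := fun i hi => Algebra.subset_adjoin (Or.inr ⟨i, hi, rfl⟩)
  have hl := left e h r B h1 h2
  have hr : ∀ x, Es 0 * x ∈ B := fun x =>
    (left ((AlgEquiv.op e).trans (Matrix.transposeAlgEquiv (Fin (d + 1)) K K).symm)
      (op_leonard h) r B.op h1 h2 (op x)).1
  have hi : Es 0 * Es 0 = Es 0 := by
    let f : 𝒜 ≃ₐ[K] End K (Fin (d + 1) → K) := e.trans Matrix.toLinAlgEquiv'
    obtain ⟨c, η, -, -, hEs⟩ := basis_of (by simp) (map_leonard f h).2.1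
    apply f.injective
    rw [map_mul]
    refine LinearMap.ext fun v => ?_
    have h0 : ∀ v, f (Es 0) v = c.repr v 0 • c 0 := hEs 0
    rw [End.mul_apply, h0, h0, map_smul, Basis.repr_self]
    simp
  have : IsSimpleRing 𝒜 := IsSimpleRing.of_ringEquiv e.symm.toRingEquiv inferInstance
  let I : TwoSidedIdeal 𝒜 := TwoSidedIdeal.mk' {z | ∀ x y, x * z * y ∈ B}
    (fun x y => by simp) (fun {a b} ha hb x y => by
      rw [mul_add, add_mul]; exact B.add_mem (ha x y) (hb x y))
    (fun {a} ha x y => by rw [mul_neg, neg_mul]; exact B.neg_mem (ha x y))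
    (fun {a b} hb x y => by rw [← mul_assoc]; exact hb _ y)
    (fun {a b} ha x y => by rw [← mul_assoc, mul_assoc _ b]; exact ha x _)
  have hI : Es 0 ∈ I := by
    rw [TwoSidedIdeal.mem_mk']
    intro x y
    have := B.mul_mem (hl x).1 (hr y)
    rwa [← mul_assoc, mul_assoc x, hi] at this
  have := IsSimpleRing.one_mem_of_ne_zero_mem I (hl 0).2 hI
  rw [TwoSidedIdeal.mem_mk'] at this
  rw [eq_top_iff]
  intro x _
  simpa using this x 1

end Pool.Agent.Results.MP_9ad7dc_al.Generate
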